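import Pool.Agent.J4H38.GS.Stm3
import Pool.Agent.J4H13.GS.Sm

/-!
# Project GS (helper38): (E2), the ratios of the Fourier coefficients
-/

set_option autoImplicit false

open MeasureTheory Set Filter Polynomial Topology
open scoped ComplexConjugate

namespace Pool.Agent.J4H49.GS

open Pool.Agent.J4H38.GS Pool.Agent.J4H13.GS

noncomputable section

lemma ln_re (σ t : ℝ) : (ln σ t).re = σ := by simp [ln]

lemma ln_im (σ t : ℝ) : (ln σ t).im = t := by simp [ln]

/-- the exponential factor -/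
def ee (m : ℤ) (y : ℝ) : ℂ := Complex.exp (-(2 * Real.pi * m * y : ℝ) * Complex.I)

/-- the integrand -/
def ff (m : ℤ) (s : ℂ) (y : ℝ) : ℂ := ee m y * (y : ℂ) ^ (-s - 1)

lemma ee_norm (m : ℤ) (y : ℝ) : ‖ee m y‖ = 1 := by
  unfold ee
  rw [← Complex.ofReal_neg, Complex.norm_exp_ofReal_mul_I]

lemma KK_eq (m : ℤ) (s : ℂ) : KK m s = ∫ y in Ioi (1 : ℝ), ff m s y := rfl

lemma ff_norm (m : ℤ) (s : ℂ) {y : ℝ} (hy : 0 < y) : ‖ff m s y‖ = y ^ (-s.re - 1) := by
  unfold ff
  rw [norm_mul, ee_norm, one_mul, Complex.norm_cpow_eq_rpow_re_of_pos hy]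
  simp

lemma ee_cont (m : ℤ) : Continuous (ee m) := by
  unfold ee
  fun_prop

lemma cpow_cont (z : ℂ) : ContinuousOn (fun y : ℝ => (y : ℂ) ^ z) (Ioi 0) := by
  intro y hy
  refine ContinuousAt.continuousWithinAt ?_
  have h : ((y : ℝ) : ℂ) ∈ Complex.slitPlane := Complex.ofReal_mem_slitPlane.2 hy
  exact (Complex.continuous_ofReal.continuousAt).cpow continuousAt_const h

lemma ff_cont (m : ℤ) (s : ℂ) : ContinuousOn (ff m s) (Ioi 0) :=
  (ee_cont m).continuousOn.mul (cpow_cont _)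

lemma ff_int (m : ℤ) {s : ℂ} (hs : 0 < s.re) : IntegrableOn (ff m s) (Ioi 1) := by
  have h := rp_int hs
  refine Integrable.mono' h ?_ ?_
  · exact ((ff_cont m s).mono (Ioi_subset_Ioi zero_le_one)).aestronglyMeasurable measurableSet_Ioi
  · refine (ae_restrict_iff' measurableSet_Ioi).2 (Filter.Eventually.of_forall ?_)
    intro y hy
    rw [ff_norm m s (lt_trans one_pos hy)]

/-- scaling -/
lemma KK_neg {n : ℕ} (hn : 1 ≤ n) {s : ℂ} (hs : 0 < s.re) :
    KK (-(n : ℤ)) s = (n : ℂ) ^ s * (KK (-1) s - ∫ y in (1 : ℝ)..n, ff (-1) s y) := by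
  have hn0 : (0 : ℝ) < n := by exact_mod_cast (by omega : 0 < n)
  have hn0' : (n : ℂ) ≠ 0 := by exact_mod_cast (by omega : n ≠ 0)
  have hn1 : (1 : ℝ) ≤ n := by exact_mod_cast hn
  have e1 : ∀ y ∈ Ioi (1 : ℝ), ff (-(n : ℤ)) s y = (n : ℂ) ^ (s + 1) * ff (-1) s (n * y) := by
    intro y hy
    have hy0 : (0 : ℝ) < y := lt_trans one_pos hy
    unfold ff ee
    have h2 : (((n : ℝ) * y : ℝ) : ℂ) = (n : ℂ) * (y : ℂ) := by push_cast; ring
    rw [h2]
    have h3 : ((n : ℂ) * (y : ℂ)) ^ (-s - 1) = (n : ℂ) ^ (-s - 1) * (y : ℂ) ^ (-s - 1) := by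
      have := Complex.mul_cpow_ofReal_nonneg hn0.le hy0.le (-s - 1)
      rwa [Complex.ofReal_natCast] at this
    have h4 : (n : ℂ) ^ (s + 1) * (n : ℂ) ^ (-s - 1) = 1 := by
      rw [← Complex.cpow_add _ _ hn0']
      have : s + 1 + (-s - 1) = 0 := by ring
      rw [this, Complex.cpow_zero]
    rw [h3]
    have h6 : (-((2 * Real.pi * ((-(n : ℤ) : ℤ) : ℝ) * y : ℝ) : ℂ)) =
        (-((2 * Real.pi * (((-1 : ℤ)) : ℝ) * (n * y) : ℝ) : ℂ)) := by
      push_cast
      ring
    rw [h6]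
    generalize Complex.exp (-((2 * Real.pi * (((-1 : ℤ)) : ℝ) * (n * y) : ℝ) : ℂ) * Complex.I) = E
    linear_combination (-(E * (y : ℂ) ^ (-s - 1))) * h4
  rw [KK_eq, setIntegral_congr_fun measurableSet_Ioi e1, integral_const_mul]
  have e2 := integral_comp_mul_left_Ioi (ff (-1) s) 1 hn0
  rw [e2, mul_one]
  have e3 : ∫ y in Ioi (n : ℝ), ff (-1) s y = KK (-1) s - ∫ y in (1 : ℝ)..n, ff (-1) s y := by
    rw [KK_eq, ← intervalIntegral.integral_interval_add_Ioi (ff_int (-1) hs)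
      ((ff_int (-1) hs).mono_set (Ioi_subset_Ioi hn1))]
    ring
  rw [e3, Complex.real_smul, Complex.cpow_add _ _ hn0', Complex.cpow_one]
  push_cast
  field_simp

lemma ee_deriv (m : ℤ) (y : ℝ) :
    HasDerivAt (ee m) (ee m y * (-(2 * Real.pi * m : ℂ) * Complex.I)) y := by
  unfold ee
  have h1 : HasDerivAt (fun y : ℝ => (-((2 * Real.pi * m * y : ℝ) : ℂ)) * Complex.I)
      (-(2 * Real.pi * m : ℂ) * Complex.I) y := by
    have h0 : HasDerivAt (fun y : ℝ => 2 * Real.pi * m * y) (2 * Real.pi * m) y := by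
      simpa using (hasDerivAt_id y).const_mul (2 * Real.pi * (m : ℝ))
    refine ((h0.ofReal_comp.neg).mul_const Complex.I).congr_deriv ?_
    push_cast
    ring
  exact h1.cexp

lemma cpow_deriv (z : ℂ) {y : ℝ} (hy : 0 < y) :
    HasDerivAt (fun y : ℝ => (y : ℂ) ^ z) (z * (y : ℂ) ^ (z - 1)) y := by
  have h : ((y : ℝ) : ℂ) ∈ Complex.slitPlane := Complex.ofReal_mem_slitPlane.2 hy
  have h1 := (hasDerivAt_id ((y : ℝ) : ℂ)).cpow_const (c := z) h
  have h2 := h1.comp_ofReal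
  simpa using h2

lemma cpow_split (s : ℂ) {y : ℝ} (hy : 0 < y) : (y : ℂ) ^ (-s) = y * (y : ℂ) ^ (-s - 1) := by
  have h0 : (y : ℂ) ≠ 0 := by exact_mod_cast hy.ne'
  rw [Complex.cpow_sub _ _ h0, Complex.cpow_one]
  field_simp

lemma cpow_le {s : ℂ} (hs : 0 < s.re) {y : ℝ} (hy : 1 ≤ y) : ‖(y : ℂ) ^ (-s)‖ ≤ 1 := by
  rw [Complex.norm_cpow_eq_rpow_re_of_pos (by linarith)]
  exact Real.rpow_le_one_of_one_le_of_nonpos hy (by simp; exact hs.le)

/-- the finite integral -/
lemma fin_bd {n : ℕ} (hn : 1 ≤ n) {s : ℂ} (hs : 0 < s.re) :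
    ‖∫ y in (1 : ℝ)..n, ff (-1) s y‖ ≤ (2 + 2 * Real.pi * n) / ‖s‖ := by
  have hn1 : (1 : ℝ) ≤ n := by exact_mod_cast hn
  have hs0 : s ≠ 0 := by
    intro h
    rw [h] at hs
    simp at hs
  have hns : 0 < ‖s‖ := norm_pos_iff.2 hs0
  have hsub : uIcc (1 : ℝ) n ⊆ Ioi 0 := by
    rw [uIcc_of_le hn1]
    intro y hy
    exact lt_of_lt_of_le one_pos hy.1
  have hd : ∀ y ∈ uIcc (1 : ℝ) n, HasDerivAt (fun y : ℝ => ee (-1) y * (y : ℂ) ^ (-s))
      (-s * ff (-1) s y + (2 * Real.pi * Complex.I) * (ee (-1) y * (y : ℂ) ^ (-s))) y := by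
    intro y hy
    have h : HasDerivAt (fun y : ℝ => ee (-1) y * (y : ℂ) ^ (-s)) _ y :=
      (ee_deriv (-1) y).mul (cpow_deriv (-s) (hsub hy))
    refine h.congr_deriv ?_
    unfold ff
    push_cast
    ring
  have hc1 : ContinuousOn (ff (-1) s) (uIcc (1 : ℝ) n) := (ff_cont (-1) s).mono hsub
  have hc2 : ContinuousOn (fun y : ℝ => ee (-1) y * (y : ℂ) ^ (-s)) (uIcc (1 : ℝ) n) :=
    ((ee_cont (-1)).continuousOn.mul (cpow_cont _)).mono hsub
  have hi1 : IntervalIntegrable (ff (-1) s) volume 1 n := hc1.intervalIntegrable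
  have hi2 : IntervalIntegrable (fun y : ℝ => ee (-1) y * (y : ℂ) ^ (-s)) volume 1 n :=
    hc2.intervalIntegrable
  have h1 := intervalIntegral.integral_eq_sub_of_hasDerivAt hd
    ((hi1.const_mul (-s)).add (hi2.const_mul (2 * Real.pi * Complex.I)))
  rw [intervalIntegral.integral_add (hi1.const_mul (-s)) (hi2.const_mul (2 * Real.pi * Complex.I)),
    intervalIntegral.integral_const_mul, intervalIntegral.integral_const_mul] at h1
  have hb : ∀ y : ℝ, 1 ≤ y → ‖ee (-1) y * (y : ℂ) ^ (-s)‖ ≤ 1 := by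
    intro y hy
    rw [norm_mul, ee_norm, one_mul]
    exact cpow_le hs hy
  have h2 : ‖∫ y in (1 : ℝ)..n, ee (-1) y * (y : ℂ) ^ (-s)‖ ≤ n := by
    have := intervalIntegral.norm_integral_le_of_norm_le_const (a := (1 : ℝ)) (b := n) (C := 1)
      (f := fun y : ℝ => ee (-1) y * (y : ℂ) ^ (-s)) (by
        intro y hy
        rw [uIoc_of_le hn1] at hy
        exact hb y hy.1.le)
    rw [abs_of_nonneg (by linarith)] at this
    linarith
  have h3 : s * ∫ y in (1 : ℝ)..n, ff (-1) s y =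
      (2 * Real.pi * Complex.I) * (∫ y in (1 : ℝ)..n, ee (-1) y * (y : ℂ) ^ (-s)) -
        (ee (-1) n * ((n : ℝ) : ℂ) ^ (-s) - ee (-1) 1 * ((1 : ℝ) : ℂ) ^ (-s)) := by
    linear_combination -h1
  have h4 : ‖s * ∫ y in (1 : ℝ)..n, ff (-1) s y‖ ≤ 2 + 2 * Real.pi * n := by
    rw [h3]
    refine (norm_sub_le _ _).trans ?_
    have h5 : ‖(2 * Real.pi * Complex.I : ℂ)‖ = 2 * Real.pi := by
      rw [norm_mul, norm_mul, Complex.norm_I, Complex.norm_real, Real.norm_eq_abs,
        abs_of_pos Real.pi_pos]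
      simp
    have h6 : ‖(2 * Real.pi * Complex.I) * (∫ y in (1 : ℝ)..n, ee (-1) y * (y : ℂ) ^ (-s))‖ ≤
        2 * Real.pi * n := by
      rw [norm_mul, h5]
      exact mul_le_mul_of_nonneg_left h2 (by positivity)
    have h7 : ‖ee (-1) n * ((n : ℝ) : ℂ) ^ (-s) - ee (-1) 1 * ((1 : ℝ) : ℂ) ^ (-s)‖ ≤ 2 := by
      refine (norm_sub_le _ _).trans ?_
      have := hb n hn1
      have := hb 1 le_rfl
      linarith
    linarith
  rw [norm_mul] at h4
  rw [le_div_iff₀ hns, mul_comm]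
  exact h4

/-- no stationary point -/
lemma KK_pos {m : ℤ} (hm : 0 < m) {σ t : ℝ} (hσ : 0 < σ) (ht : 0 < t) :
    ‖KK m (ln σ t)‖ ≤ (1 + (σ + 1) / σ) / t := by
  set s : ℂ := ln σ t with hs
  have hre : s.re = σ := ln_re σ t
  have hsre : 0 < s.re := by rw [hre]; exact hσ
  have hm1 : (1 : ℝ) ≤ m := by exact_mod_cast hm
  have hpi := Real.pi_gt_three
  set μ : ℝ := 2 * Real.pi * m with hμ
  have hμ1 : 1 ≤ μ := by rw [hμ]; nlinarith
  have hD : ∀ y : ℝ, 0 ≤ y → t ≤ μ * y + t := by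
    intro y hy
    have := mul_nonneg (by linarith : (0 : ℝ) ≤ μ) hy
    linarith
  have hD0 : ∀ y : ℝ, 0 ≤ y → ((μ * y + t : ℝ) : ℂ) ≠ 0 := by
    intro y hy
    have := hD y hy
    exact_mod_cast (by linarith : μ * y + t ≠ 0)
  set w : ℝ → ℂ := fun y => 1 - Complex.I * σ / ((μ * y + t : ℝ) : ℂ) -
    Complex.I * (μ * y : ℝ) / ((μ * y + t : ℝ) : ℂ) ^ 2 with hw
  have hd : ∀ y ∈ Ici (1 : ℝ), HasDerivAt
      (fun y : ℝ => Complex.I * (ee m y * (y : ℂ) ^ (-s)) / ((μ * y + t : ℝ) : ℂ))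
      (ff m s y * w y) y := by
    intro y hy
    have hy0 : 0 < y := lt_of_lt_of_le one_pos hy
    have h1 : HasDerivAt (fun y : ℝ => Complex.I * (ee m y * (y : ℂ) ^ (-s))) _ y :=
      ((ee_deriv m y).mul (cpow_deriv (-s) hy0)).const_mul Complex.I
    have h2 : HasDerivAt (fun y : ℝ => ((μ * y + t : ℝ) : ℂ)) (μ : ℂ) y := by
      have h0 : HasDerivAt (fun y : ℝ => μ * y + t) μ y := by
        simpa using ((hasDerivAt_id y).const_mul μ).add_const t
      exact h0.ofReal_comp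
    have h3 : HasDerivAt
      (fun y : ℝ => Complex.I * (ee m y * (y : ℂ) ^ (-s)) / ((μ * y + t : ℝ) : ℂ)) _ y :=
      h1.div h2 (hD0 y hy0.le)
    refine h3.congr_deriv ?_
    rw [cpow_split s hy0]
    have hD1 := hD0 y hy0.le
    have hμc : (2 * Real.pi * m : ℂ) = (μ : ℂ) := by rw [hμ]; push_cast; ring
    rw [hμc]
    have hsv : s = σ + t * Complex.I := hs
    rw [hw]
    simp only
    unfold ff
    have hDe : ((μ * y + t : ℝ) : ℂ) = μ * y + t := by push_cast; ring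
    have hDy : ((μ * y : ℝ) : ℂ) = μ * y := by push_cast; ring
    rw [hDy]
    rw [hDe] at hD1 ⊢
    field_simp
    have hI : Complex.I ^ 2 = -1 := Complex.I_sq
    generalize ee m y = E
    generalize (y : ℂ) ^ (-s - 1) = P
    rw [hsv]
    have hI3 : Complex.I ^ 3 = - Complex.I := by
      rw [pow_succ, hI]; ring
    ring_nf
    simp only [hI]
    ring
  have hwb : ∀ y : ℝ, 1 ≤ y → ‖1 - w y‖ ≤ (σ + 1) / t := by
    intro y hy
    have hDy := hD y (by linarith)
    have hDp : 0 < μ * y + t := by linarith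
    have e : 1 - w y = Complex.I * σ / ((μ * y + t : ℝ) : ℂ) +
      Complex.I * (μ * y : ℝ) / ((μ * y + t : ℝ) : ℂ) ^ 2 := by
      rw [hw]; ring
    rw [e]
    refine (norm_add_le _ _).trans ?_
    rw [norm_div, norm_mul, norm_div, norm_mul, norm_pow, Complex.norm_I, one_mul, one_mul,
      Complex.norm_real, Complex.norm_real, Complex.norm_real, Real.norm_eq_abs, Real.norm_eq_abs,
      Real.norm_eq_abs, abs_of_pos hσ, abs_of_pos hDp,
      abs_of_nonneg (mul_nonneg (by linarith) (by linarith) : 0 ≤ μ * y)]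
    have h1 : σ / (μ * y + t) ≤ σ / t := div_le_div_of_nonneg_left hσ.le ht hDy
    have h2 : μ * y / (μ * y + t) ^ 2 ≤ 1 / t := by
      rw [div_le_div_iff₀ (by positivity) ht]
      nlinarith
    rw [add_div]
    linarith
  have hwc : ContinuousOn w (Ioi 1) := by
    intro y hy
    refine ContinuousAt.continuousWithinAt ?_
    have hD1 := hD0 y (by have : (1 : ℝ) < y := hy; linarith)
    have hc : Continuous (fun y : ℝ => ((μ * y + t : ℝ) : ℂ)) := by fun_prop
    have hc2 : Continuous (fun y : ℝ => ((μ * y : ℝ) : ℂ)) := by fun_prop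
    rw [hw]
    refine ((continuousAt_const).sub ?_).sub ?_
    · exact (continuousAt_const).div hc.continuousAt hD1
    · exact (continuousAt_const.mul hc2.continuousAt).div (hc.continuousAt.pow 2)
        (pow_ne_zero 2 hD1)
  have hfi := ff_int m hsre
  have hfc : ContinuousOn (ff m s) (Ioi 1) := (ff_cont m s).mono (Ioi_subset_Ioi zero_le_one)
  have hi2 : IntegrableOn (fun y => ff m s y * (1 - w y)) (Ioi 1) := by
    refine Integrable.mono' ((rp_int hσ).mul_const ((σ + 1) / t)) ?_ ?_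
    · exact (hfc.mul (continuousOn_const.sub hwc)).aestronglyMeasurable measurableSet_Ioi
    · refine (ae_restrict_iff' measurableSet_Ioi).2 (Filter.Eventually.of_forall ?_)
      intro y hy
      have hy1 : (1 : ℝ) < y := hy
      rw [norm_mul, ff_norm m s (by linarith), hre]
      exact mul_le_mul_of_nonneg_left (hwb y hy1.le) (Real.rpow_nonneg (by linarith) _)
  have hi1 : IntegrableOn (fun y => ff m s y * w y) (Ioi 1) := by
    have := hfi.sub hi2
    refine this.congr (Filter.Eventually.of_forall fun y => ?_)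
    simp only [Pi.sub_apply]
    ring
  have hlim : Tendsto
      (fun y : ℝ => Complex.I * (ee m y * (y : ℂ) ^ (-s)) / ((μ * y + t : ℝ) : ℂ)) atTop (𝓝 0) := by
    refine squeeze_zero_norm' (a := fun y : ℝ => y⁻¹) ?_ tendsto_inv_atTop_zero
    filter_upwards [eventually_ge_atTop (1 : ℝ)] with y hy
    have hDp : y ≤ μ * y + t := by nlinarith
    rw [norm_div, norm_mul, norm_mul, ee_norm, Complex.norm_I, one_mul, one_mul,
      Complex.norm_real, Real.norm_eq_abs, abs_of_pos (by linarith : 0 < μ * y + t), inv_eq_one_div]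
    exact div_le_div₀ zero_le_one (cpow_le hsre hy) (by linarith) hDp
  have h1 := integral_Ioi_of_hasDerivAt_of_tendsto' hd hi1 hlim
  have h2 : KK m s = (∫ y in Ioi (1 : ℝ), ff m s y * w y) +
      ∫ y in Ioi (1 : ℝ), ff m s y * (1 - w y) := by
    rw [KK_eq, ← integral_add hi1 hi2]
    refine integral_congr_ae (Filter.Eventually.of_forall fun y => ?_)
    simp only
    ring
  have h3 : ‖∫ y in Ioi (1 : ℝ), ff m s y * w y‖ ≤ 1 / t := by
    rw [h1, zero_sub, norm_neg]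
    rw [norm_div, norm_mul, norm_mul, ee_norm, Complex.norm_I, one_mul, one_mul,
      Complex.norm_real, Real.norm_eq_abs, abs_of_pos (by nlinarith : 0 < μ * 1 + t)]
    exact div_le_div₀ zero_le_one (cpow_le hsre le_rfl) ht (hD 1 zero_le_one)
  have h4 : ‖∫ y in Ioi (1 : ℝ), ff m s y * (1 - w y)‖ ≤ 1 / σ * ((σ + 1) / t) := by
    rw [← rp_val hσ, ← integral_mul_const]
    refine norm_integral_le_of_norm_le ((rp_int hσ).mul_const ((σ + 1) / t)) ?_
    refine (ae_restrict_iff' measurableSet_Ioi).2 (Filter.Eventually.of_forall ?_)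
    intro y hy
    have hy1 : (1 : ℝ) < y := hy
    rw [norm_mul, ff_norm m s (by linarith), hre]
    exact mul_le_mul_of_nonneg_left (hwb y hy1.le) (Real.rpow_nonneg (by linarith) _)
  rw [h2]
  refine (norm_add_le _ _).trans ((add_le_add h3 h4).trans (le_of_eq ?_))
  field_simp

/-- quotients of a bounded function by a large one -/
lemma tend_quot {f g : ℝ → ℂ} {A c t₀ δ : ℝ} (hc : 0 < c) (hδ : 0 < δ) (h₀ : 1 ≤ t₀)
    (hf : ∀ t : ℝ, t₀ ≤ t → ‖f t‖ ≤ A) (hg : ∀ t : ℝ, t₀ ≤ t → c * t ^ δ ≤ ‖g t‖) :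
    Tendsto (fun t => f t / g t) atTop (𝓝 0) := by
  have hA : 0 ≤ A := (norm_nonneg _).trans (hf t₀ le_rfl)
  have h1 : Tendsto (fun t : ℝ => A / c * t ^ (-δ)) atTop (𝓝 0) := by
    have := (tendsto_rpow_neg_atTop hδ).const_mul (A / c)
    simpa using this
  refine squeeze_zero_norm' (a := fun t : ℝ => A / c * t ^ (-δ)) ?_ h1
  filter_upwards [eventually_ge_atTop t₀] with t ht
  have ht0 : 0 < t := by linarith
  have h2 : 0 < c * t ^ δ := mul_pos hc (Real.rpow_pos_of_pos ht0 _)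
  rw [norm_div]
  have h3 : ‖f t‖ / ‖g t‖ ≤ A / (c * t ^ δ) := div_le_div₀ hA (hf t ht) h2 (hg t ht)
  refine h3.trans (le_of_eq ?_)
  rw [Real.rpow_neg ht0.le]
  field_simp

lemma ln_norm {σ t : ℝ} (hσ : 0 < σ) (hσ2 : σ < 1 / 2) (ht : 1 ≤ t) : ‖ln σ t‖ ≤ 2 * t := by
  unfold ln
  refine (norm_add_le _ _).trans ?_
  rw [norm_mul, Complex.norm_real, Complex.norm_real, Complex.norm_I, mul_one, Real.norm_eq_abs,
    Real.norm_eq_abs, abs_of_pos hσ, abs_of_pos (by linarith)]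
  linarith

lemma cc_zero {σ t : ℝ} (ht : 0 < t) : ‖cc 0 (ln σ t)‖ ≤ 1 / t := by
  unfold cc
  rw [if_pos rfl, norm_div, norm_one]
  refine one_div_le_one_div_of_le ht ?_
  have h := Complex.abs_im_le_norm (ln σ t - 1)
  rw [Complex.sub_im, ln_im, Complex.one_im, sub_zero, abs_of_pos ht] at h
  exact h

lemma den_norm (m : ℤ) : ‖(2 * Real.pi * m * Complex.I : ℂ)‖ = 2 * Real.pi * |(m : ℝ)| := by
  rw [norm_mul, norm_mul, norm_mul, Complex.norm_I, Complex.norm_real, Complex.norm_intCast,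
    Real.norm_eq_abs, abs_of_pos Real.pi_pos]
  simp

/-- **(E2)** -/
theorem t_E2 (hKB : S_KB) (hE1 : S_E1) : S_E2 := by
  intro σ hσ hσ2
  obtain ⟨C, hC, hK⟩ := hKB σ hσ hσ2
  obtain ⟨c, t₀, hc, ht₀, hE⟩ := hE1 σ hσ hσ2
  have hg : ∀ t : ℝ, t₀ ≤ t → c * t ^ (1 / 2 - σ) ≤ ‖cc (-1) (ln σ t)‖ := fun t ht => (hE t ht).2
  have hne : ∀ t : ℝ, t₀ ≤ t → cc (-1) (ln σ t) ≠ 0 := by
    intro t ht h0
    have h1 := hg t ht
    rw [h0, norm_zero] at h1
    have : 0 < c * t ^ (1 / 2 - σ) := mul_pos hc (Real.rpow_pos_of_pos (by linarith) _)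
    linarith
  have hpi := Real.pi_gt_three
  refine ⟨fun n hn => ?_, fun m hm => ?_, (1 + 2 * C) / c, t₀, by positivity, ht₀, hne,
    fun m t ht => ?_⟩
  · have hn0 : (n : ℂ) ≠ 0 := by exact_mod_cast (by omega : n ≠ 0)
    have hnR : (1 : ℝ) ≤ n := by exact_mod_cast hn
    have hnz : -(n : ℤ) ≠ 0 := by omega
    have h1 := tend_quot (f := fun t : ℝ => cc (-(n : ℤ)) (ln σ t) -
      (n : ℂ) ^ (ln σ t - 1) * cc (-1) (ln σ t)) (g := fun t : ℝ => cc (-1) (ln σ t))
      (A := 1 + (n : ℝ) ^ σ * (3 + 2 * Real.pi * n)) (δ := 1 / 2 - σ) hc (by linarith) ht₀ ?_ hg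
    · refine h1.congr' ?_
      filter_upwards [eventually_ge_atTop t₀] with t ht
      have h2 := hne t ht
      rw [sub_div, mul_div_assoc, div_self h2, mul_one]
      unfold rr
      congr 2
      unfold ln
      ring
    · intro t ht
      have ht1 : 1 ≤ t := by linarith
      set s := ln σ t with hs
      have hre : s.re = σ := ln_re σ t
      have hsre : 0 < s.re := by rw [hre]; exact hσ
      have hs0 : s ≠ 0 := by
        intro h
        rw [h] at hsre
        simp at hsre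
      set I := ∫ y in (1 : ℝ)..n, ff (-1) s y with hI
      have hIb : ‖s * I‖ ≤ 2 + 2 * Real.pi * n := by
        have := fin_bd hn hsre
        rw [norm_mul, mul_comm]
        rwa [le_div_iff₀ (norm_pos_iff.2 hs0)] at this
      have e : cc (-(n : ℤ)) s - (n : ℂ) ^ (s - 1) * cc (-1) s =
          (1 - (n : ℂ) ^ s + (n : ℂ) ^ s * (s * I)) / (2 * Real.pi * ((-(n : ℤ) : ℤ) : ℂ) * Complex.I) := by
        unfold cc
        rw [if_neg hnz, if_neg (by norm_num), KK_neg hn hsre, Complex.cpow_sub _ _ hn0,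
          Complex.cpow_one, ← hI]
        have hpc : (Real.pi : ℂ) ≠ 0 := by exact_mod_cast Real.pi_ne_zero
        push_cast
        field_simp
        ring
      rw [e, norm_div, den_norm]
      have hns : ‖(n : ℂ) ^ s‖ = (n : ℝ) ^ σ := by
        rw [← hre]
        exact Complex.norm_natCast_cpow_of_pos (by omega) s
      have habs : |(((-(n : ℤ)) : ℤ) : ℝ)| = n := by
        push_cast
        rw [abs_neg, abs_of_nonneg (by linarith)]
      rw [habs]
      have h3 : ‖1 - (n : ℂ) ^ s + (n : ℂ) ^ s * (s * I)‖ ≤ 1 + (n : ℝ) ^ σ * (3 + 2 * Real.pi * n) := by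
        refine (norm_add_le _ _).trans ?_
        have h4 := norm_sub_le (1 : ℂ) ((n : ℂ) ^ s)
        rw [norm_one, hns] at h4
        rw [norm_mul, hns]
        have h5 : (n : ℝ) ^ σ * ‖s * I‖ ≤ (n : ℝ) ^ σ * (2 + 2 * Real.pi * n) :=
          mul_le_mul_of_nonneg_left hIb (by positivity)
        linarith
      refine (div_le_self (norm_nonneg _) ?_).trans h3
      nlinarith
  · rcases hm.eq_or_lt with h0 | h0
    · rw [← h0]
      refine tend_quot (f := fun t : ℝ => cc 0 (ln σ t)) (g := fun t : ℝ => cc (-1) (ln σ t))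
        (A := 1) (δ := 1 / 2 - σ) hc (by linarith) ht₀ ?_ hg
      intro t ht
      refine (cc_zero (by linarith)).trans ?_
      rw [div_le_one (by linarith)]
      linarith
    · refine tend_quot (f := fun t : ℝ => cc m (ln σ t)) (g := fun t : ℝ => cc (-1) (ln σ t))
        (A := 1 + 2 * (1 + (σ + 1) / σ)) (δ := 1 / 2 - σ) hc (by linarith) ht₀ ?_ hg
      intro t ht
      have ht1 : 1 ≤ t := by linarith
      have hm1 : (1 : ℝ) ≤ m := by exact_mod_cast h0
      unfold cc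
      rw [if_neg h0.ne', norm_div, den_norm, abs_of_pos (by linarith)]
      refine (div_le_self (norm_nonneg _) (by nlinarith)).trans ?_
      refine (norm_sub_le _ _).trans ?_
      rw [norm_one, norm_mul]
      have h2 := KK_pos h0 hσ (by linarith : 0 < t)
      have h3 := ln_norm hσ hσ2 ht1
      have h4 : ‖ln σ t‖ * ‖KK m (ln σ t)‖ ≤ 2 * t * ((1 + (σ + 1) / σ) / t) :=
        mul_le_mul h3 h2 (norm_nonneg _) (by linarith)
      have h5 : 2 * t * ((1 + (σ + 1) / σ) / t) = 2 * (1 + (σ + 1) / σ) := by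
        field_simp
      linarith
  · have ht1 : 1 ≤ t := by linarith
    have htp : 0 < t := by linarith
    have h2 : 0 < c * t ^ (1 / 2 - σ) := mul_pos hc (Real.rpow_pos_of_pos htp _)
    have hA : 1 ≤ t ^ (1 / 2 - σ) := Real.one_le_rpow ht1 (by linarith)
    unfold rr
    rw [norm_div]
    by_cases hm : m = 0
    · rw [if_pos hm, hm, mul_one]
      have h3 : ‖cc 0 (ln σ t)‖ ≤ 1 := by
        refine (cc_zero htp).trans ?_
        rw [div_le_one htp]
        exact ht1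
      have h4 : ‖cc 0 (ln σ t)‖ / ‖cc (-1) (ln σ t)‖ ≤ 1 / c := by
        refine div_le_div₀ zero_le_one h3 hc ?_
        refine le_trans ?_ (hg t ht)
        nlinarith
      refine h4.trans ?_
      exact div_le_div_of_nonneg_right (by linarith) hc.le
    · rw [if_neg hm]
      have habs : |t| = t := abs_of_pos htp
      have h3 := hK m t hm (by rw [habs]; exact ht1)
      have h4 := coef_bd hσ hσ2 hC (t := t) (by rw [habs]; exact ht1) m hm h3.1 h3.2
      have h5 : ‖cc m (ln σ t)‖ ≤ (1 + 2 * C) * (t ^ (1 / 2 - σ) * |(m : ℝ)| ^ (σ - 1)) := by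
        unfold cc
        rw [if_neg hm]
        rw [habs] at h4
        exact h4
      refine (div_le_div₀ (by positivity) h5 h2 (hg t ht)).trans (le_of_eq ?_)
      have : t ^ (1 / 2 - σ) ≠ 0 := by positivity
      field_simp

end

end Pool.Agent.J4H49.GS
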