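import Pool.Agent.J4H49.GS.Z3
import Pool.Agent.TH158.FM.Main

/-! # GS-Z3A: conclusion -/

set_option autoImplicit false

namespace Pool.Agent.J4H49.GS

open Pool.Agent.J4H38.GS

theorem four_all : Four := fun T hT => Pool.Agent.TH158.FM.fourth_all T hT

theorem t_Z3A : S_Z3A := z3a_of four_all

end Pool.Agent.J4H49.GS
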