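import Pool.Agent.J4H38.GS.Stm2

/-!
# GS-Z3A: the fourth moment of the zeta function with a weight (helper49, for project GS of helper38)
-/

set_option autoImplicit false

open MeasureTheory Set Filter Topology
open scoped ENNReal ComplexConjugate

namespace Pool.Agent.J4H49.GS

open Pool.Agent.J4H38.GS

noncomputable section

/-- the zeta function on the critical line -/
def zl (t : ℝ) : ℂ := riemannZeta ((1 / 2 : ℝ) + t * Complex.I)

theorem zl_cont : Continuous zl := by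
  unfold zl
  rw [continuous_iff_continuousAt]
  intro t
  have h1 : ((1 / 2 : ℝ) + t * Complex.I : ℂ) ≠ 1 := by
    intro h
    have := congrArg Complex.re h
    norm_num at this
  have h2 : ContinuousAt riemannZeta ((1 / 2 : ℝ) + t * Complex.I : ℂ) :=
    (differentiableAt_riemannZeta h1).continuousAt
  exact ContinuousAt.comp (f := fun t : ℝ => ((1 / 2 : ℝ) + t * Complex.I : ℂ)) h2
    (by fun_prop)

theorem zl_neg (t : ℝ) : ‖zl (-t)‖ = ‖zl t‖ := by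
  unfold zl
  have h1 : (((1 / 2 : ℝ) : ℂ) + ((-t : ℝ) : ℂ) * Complex.I) =
      conj (((1 / 2 : ℝ) : ℂ) + (t : ℂ) * Complex.I) := by
    rw [map_add, map_mul, Complex.conj_ofReal, Complex.conj_ofReal, Complex.conj_I]
    push_cast
    ring
  rw [h1, riemannZeta_conj, RCLike.norm_conj]

/-- the bound of the fourth moment used here -/
def Four : Prop := ∀ T : ℝ, 1000 ≤ T → ∫ t in (0 : ℝ)..T, ‖zl t‖ ^ 4 ≤ 4 / 5 * (T * Real.log T ^ 4)

theorem four_bd (hF : Four) {δ : ℝ} (hδ : 0 < δ) : ∃ C : ℝ, 0 ≤ C ∧ ∀ T : ℝ, 1 ≤ T →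
    ∫ t in (0 : ℝ)..T, ‖zl t‖ ^ 4 ≤ C * T ^ (1 + δ) := by
  have hc : Continuous fun t => ‖zl t‖ ^ 4 := by
    have := zl_cont
    fun_prop
  have hK : 0 ≤ ∫ t in (0 : ℝ)..1000, ‖zl t‖ ^ 4 :=
    intervalIntegral.integral_nonneg (by norm_num) fun t _ => by positivity
  refine ⟨4 / 5 * (1 / (δ / 4)) ^ 4 + ∫ t in (0 : ℝ)..1000, ‖zl t‖ ^ 4, by positivity, fun T hT => ?_⟩
  have hT0 : 0 < T := by linarith
  have h1 : 1 ≤ T ^ (1 + δ) := Real.one_le_rpow hT (by linarith)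
  rw [add_mul]
  rcases le_total 1000 T with h2 | h2
  · have h3 := hF T h2
    have h4 : Real.log T ≤ T ^ (δ / 4) / (δ / 4) := Real.log_le_rpow_div hT0.le (by positivity)
    have h5 : Real.log T ^ 4 ≤ (T ^ (δ / 4) / (δ / 4)) ^ 4 :=
      pow_le_pow_left₀ (Real.log_nonneg hT) h4 4
    have h6 : (T ^ (δ / 4) / (δ / 4)) ^ 4 = (1 / (δ / 4)) ^ 4 * T ^ δ := by
      have h7 : (T ^ (δ / 4)) ^ 4 = T ^ δ := by
        rw [← Real.rpow_natCast, ← Real.rpow_mul hT0.le]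
        congr 1
        norm_num
      rw [div_pow, h7]
      ring
    have h8 : T ^ (1 + δ) = T * T ^ δ := by
      rw [Real.rpow_add hT0, Real.rpow_one]
    rw [h6] at h5
    have h9 : 4 / 5 * (T * Real.log T ^ 4) ≤ 4 / 5 * (T * ((1 / (δ / 4)) ^ 4 * T ^ δ)) := by gcongr
    have h10 : 4 / 5 * (T * ((1 / (δ / 4)) ^ 4 * T ^ δ)) = 4 / 5 * (1 / (δ / 4)) ^ 4 * T ^ (1 + δ) := by
      rw [h8]
      ring
    have h11 : 0 ≤ (∫ t in (0 : ℝ)..1000, ‖zl t‖ ^ 4) * T ^ (1 + δ) := by positivity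
    linarith
  · have h3 : ∫ t in (0 : ℝ)..T, ‖zl t‖ ^ 4 ≤ ∫ t in (0 : ℝ)..1000, ‖zl t‖ ^ 4 := by
      apply intervalIntegral.integral_mono_interval le_rfl hT0.le h2
      · exact Eventually.of_forall fun t => by positivity
      · exact hc.intervalIntegrable _ _
    have h4 : (∫ t in (0 : ℝ)..1000, ‖zl t‖ ^ 4) * 1 ≤ (∫ t in (0 : ℝ)..1000, ‖zl t‖ ^ 4) * T ^ (1 + δ) := by
      gcongr
    have h5 : 0 ≤ 4 / 5 * (1 / (δ / 4)) ^ 4 * T ^ (1 + δ) := by positivity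
    linarith

theorem half_bd {C T : ℝ} (hT : 0 ≤ T) (h : ∫ t in (0 : ℝ)..T, ‖zl t‖ ^ 4 ≤ C) :
    ∫⁻ t in Icc (0 : ℝ) T, ‖zl t‖ₑ ^ 4 ≤ ENNReal.ofReal C := by
  have hc : Continuous fun t => ‖zl t‖ ^ 4 := by
    have := zl_cont
    fun_prop
  have h1 : ∫⁻ t in Icc (0 : ℝ) T, ‖zl t‖ₑ ^ 4 = ∫⁻ t in Icc (0 : ℝ) T, ENNReal.ofReal (‖zl t‖ ^ 4) := by
    apply lintegral_congr
    intro t
    rw [ENNReal.ofReal_pow (norm_nonneg _), ofReal_norm]
  rw [h1, ← ofReal_integral_eq_lintegral_ofReal (hc.continuousOn.integrableOn_compact isCompact_Icc)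
    (Eventually.of_forall fun t => by positivity)]
  apply ENNReal.ofReal_le_ofReal
  rw [integral_Icc_eq_integral_Ioc, ← intervalIntegral.integral_of_le hT]
  exact h

theorem both_bd {C T : ℝ} (hT : 0 ≤ T) (h : ∫ t in (0 : ℝ)..T, ‖zl t‖ ^ 4 ≤ C) :
    ∫⁻ t in Icc (-T) T, ‖zl t‖ₑ ^ 4 ≤ 2 * ENNReal.ofReal C := by
  have h0 := half_bd hT h
  have h1 : ∫⁻ t in Icc (-T) 0, ‖zl t‖ₑ ^ 4 = ∫⁻ t in Icc (0 : ℝ) T, ‖zl t‖ₑ ^ 4 := by
    rw [← lintegral_indicator measurableSet_Icc, ← lintegral_indicator measurableSet_Icc,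
      ← lintegral_neg_eq_self (f := (Icc (-T) 0).indicator fun t => ‖zl t‖ₑ ^ 4)]
    apply lintegral_congr
    intro t
    by_cases ht : t ∈ Icc (0 : ℝ) T
    · rw [indicator_of_mem ht, indicator_of_mem (by
        rw [mem_Icc] at ht ⊢
        constructor <;> linarith [ht.1, ht.2])]
      congr 1
      rw [← ofReal_norm, ← ofReal_norm, zl_neg]
    · rw [indicator_of_notMem ht, indicator_of_notMem (by
        rw [mem_Icc] at ht ⊢
        intro h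
        exact ht ⟨by linarith [h.2], by linarith [h.1]⟩)]
  have h2 : Icc (-T) T ⊆ Icc (-T) 0 ∪ Icc 0 T := by
    intro t ht
    rcases le_total t 0 with h3 | h3
    · exact Or.inl ⟨ht.1, h3⟩
    · exact Or.inr ⟨h3, ht.2⟩
  calc ∫⁻ t in Icc (-T) T, ‖zl t‖ₑ ^ 4 ≤ ∫⁻ t in Icc (-T) 0 ∪ Icc 0 T, ‖zl t‖ₑ ^ 4 :=
        lintegral_mono_set h2
    _ ≤ (∫⁻ t in Icc (-T) 0, ‖zl t‖ₑ ^ 4) + ∫⁻ t in Icc (0 : ℝ) T, ‖zl t‖ₑ ^ 4 :=
        lintegral_union_le _ _ _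
    _ ≤ 2 * ENNReal.ofReal C := by
        rw [h1, two_mul]
        gcongr

theorem z3a_of (hF : Four) : S_Z3A := by
  intro w hw
  obtain ⟨C, hC, hb⟩ := four_bd hF (δ := (w - 1) / 2) (by linarith)
  set B : ℕ → Set ℝ := fun j => {t | (2 : ℝ) ^ j ≤ |t| ∧ |t| < (2 : ℝ) ^ (j + 1)} with hB
  have hcov : {t : ℝ | 1 ≤ |t|} ⊆ ⋃ j, B j := by
    intro t ht
    obtain ⟨j, h1, h2⟩ := exists_nat_pow_near (x := |t|) (y := 2) ht (by norm_num)
    exact mem_iUnion.2 ⟨j, h1, h2⟩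
  have hblock : ∀ j, ∫⁻ t in B j, ‖riemannZeta ((1 / 2 : ℝ) + t * Complex.I)‖ₑ ^ 4 *
      ENNReal.ofReal (|t| ^ (-w)) ≤
      ENNReal.ofReal (2 * C * 2 ^ (1 + (w - 1) / 2) * (2 ^ (-((w - 1) / 2)) : ℝ) ^ j) := by
    intro j
    have hj : (0 : ℝ) < 2 ^ j := by positivity
    have hT1 : (1 : ℝ) ≤ 2 ^ (j + 1) := one_le_pow₀ (by norm_num)
    have hms : MeasurableSet (B j) := by
      apply MeasurableSet.inter
      · exact measurableSet_le measurable_const continuous_abs.measurable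
      · exact measurableSet_lt continuous_abs.measurable measurable_const
    have h1 : ∫⁻ t in B j, ‖riemannZeta ((1 / 2 : ℝ) + t * Complex.I)‖ₑ ^ 4 *
        ENNReal.ofReal (|t| ^ (-w)) ≤
        ∫⁻ t in B j, ‖zl t‖ₑ ^ 4 * ENNReal.ofReal (((2 : ℝ) ^ j) ^ (-w)) := by
      apply setLIntegral_mono' hms
      intro t ht
      exact mul_le_mul' le_rfl (ENNReal.ofReal_le_ofReal
        (Real.rpow_le_rpow_of_nonpos hj ht.1 (by linarith : -w ≤ 0)))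
    have h2 : ∫⁻ t in B j, ‖zl t‖ₑ ^ 4 * ENNReal.ofReal (((2 : ℝ) ^ j) ^ (-w)) ≤
        (2 * ENNReal.ofReal (C * (2 ^ (j + 1) : ℝ) ^ (1 + (w - 1) / 2))) *
          ENNReal.ofReal (((2 : ℝ) ^ j) ^ (-w)) := by
      rw [lintegral_mul_const']
      · gcongr
        refine le_trans (lintegral_mono_set ?_) (both_bd (by positivity) (hb _ hT1))
        intro t ht
        rw [mem_Icc, ← abs_le]
        exact ht.2.le
      · exact ENNReal.ofReal_ne_top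
    refine (h1.trans h2).trans (le_of_eq ?_)
    rw [show (2 : ℝ≥0∞) = ENNReal.ofReal 2 by simp, ← ENNReal.ofReal_mul (by norm_num),
      ← ENNReal.ofReal_mul (by positivity)]
    congr 1
    have e1 : ((2 : ℝ) ^ (j + 1)) ^ (1 + (w - 1) / 2) =
        2 ^ (1 + (w - 1) / 2) * ((2 : ℝ) ^ j) ^ (1 + (w - 1) / 2) := by
      rw [pow_succ, Real.mul_rpow (by positivity) (by norm_num)]
      ring
    have e2 : ((2 : ℝ) ^ j) ^ (1 + (w - 1) / 2) * ((2 : ℝ) ^ j) ^ (-w) =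
        ((2 : ℝ) ^ (-((w - 1) / 2))) ^ j := by
      rw [← Real.rpow_add hj, ← Real.rpow_natCast 2 j, ← Real.rpow_mul (by norm_num),
        ← Real.rpow_natCast (2 ^ (-((w - 1) / 2))) j, ← Real.rpow_mul (by norm_num)]
      congr 1
      ring
    rw [e1, ← e2]
    ring
  have hr0 : (0 : ℝ) < 2 ^ (-((w - 1) / 2)) := by positivity
  have hr1 : (2 : ℝ) ^ (-((w - 1) / 2)) < 1 := by
    apply Real.rpow_lt_one_of_one_lt_of_neg (by norm_num)
    linarith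
  calc ∫⁻ t in {t : ℝ | 1 ≤ |t|}, ‖riemannZeta ((1 / 2 : ℝ) + t * Complex.I)‖ₑ ^ 4 *
        ENNReal.ofReal (|t| ^ (-w)) ≤
      ∫⁻ t in ⋃ j, B j, ‖riemannZeta ((1 / 2 : ℝ) + t * Complex.I)‖ₑ ^ 4 *
        ENNReal.ofReal (|t| ^ (-w)) := lintegral_mono_set hcov
    _ ≤ ∑' j, ∫⁻ t in B j, ‖riemannZeta ((1 / 2 : ℝ) + t * Complex.I)‖ₑ ^ 4 *
        ENNReal.ofReal (|t| ^ (-w)) := lintegral_iUnion_le _ _
    _ ≤ ∑' j, ENNReal.ofReal (2 * C * 2 ^ (1 + (w - 1) / 2) * (2 ^ (-((w - 1) / 2)) : ℝ) ^ j) :=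
        ENNReal.tsum_le_tsum hblock
    _ < ⊤ := by
        rw [← ENNReal.ofReal_tsum_of_nonneg (fun j => by positivity)
          ((summable_geometric_of_lt_one hr0.le hr1).mul_left _)]
        exact ENNReal.ofReal_lt_top

end

end Pool.Agent.J4H49.GS
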